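import Pool.Agent.Lib.MP_6ec4b3_lc.Interfaces

/-!
# The decision procedure is correct with probability at least `5 / 8`
-/

namespace Pool.Agent.Polya.H58

open Pool.Agent.Shoped30 Pool.Agent.TMLib Computability

theorem nblocks_mono {n l l' t : ℕ} (h : l ≤ l') : nblocks n l t ≤ nblocks n l' t := by
  unfold nblocks
  have := Nat.mul_le_mul_left n h
  omega

theorem nbits_mono {n l l' t : ℕ} (h : l ≤ l') : nbits n l t ≤ nbits n l' t := by
  unfold nbits
  exact Nat.mul_le_mul_left _ h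

theorem eval_mono (p : Polynomial ℕ) {a b : ℕ} (h : a ≤ b) : p.eval a ≤ p.eval b := by
  rw [Polynomial.eval_eq_sum, Polynomial.eval_eq_sum, Polynomial.sum, Polynomial.sum]
  exact Finset.sum_le_sum fun i _ => Nat.mul_le_mul_left _ (Nat.pow_le_pow_left h i)

/-- The lengths of the binary expansions decide: large quotient. -/
theorem size_large {a b τ : ℕ} (hb : b ≠ 0) (h : (2 : ℝ) ^ τ ≤ (a : ℝ) / b) :
    b.bits.length + τ ≤ a.bits.length := by
  have hb' : (0 : ℝ) < b := by positivity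
  rw [le_div_iff₀ hb'] at h
  have h1 : 2 ^ τ * b ≤ a := by exact_mod_cast h
  have h2 : 2 ^ τ * b ≠ 0 := Nat.mul_ne_zero (by positivity) hb
  rw [Nat.size_eq_bits_len, Nat.size_eq_bits_len]
  have h3 : (2 ^ τ * b).size ≤ a.size := Nat.size_le_size h1
  have h4 : (2 ^ τ * b).size = b.size + τ := by
    rw [mul_comm, ← Nat.shiftLeft_eq]
    exact Nat.size_shiftLeft hb τ
  omega

/-- The lengths of the binary expansions decide: small quotient. -/
theorem size_small {a b τ : ℕ} (hb : b ≠ 0) (h : 2 * ((a : ℝ) / b) ≤ (2 : ℝ) ^ τ) :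
    ¬ b.bits.length + τ ≤ a.bits.length := by
  have hb' : (0 : ℝ) < b := by positivity
  intro hle
  rw [Nat.size_eq_bits_len, Nat.size_eq_bits_len] at hle
  have h1 : 2 * (a : ℝ) ≤ 2 ^ τ * b := by
    rw [← mul_div_assoc, div_le_iff₀ hb'] at h
    exact h
  have h2 : 2 * a ≤ 2 ^ τ * b := by exact_mod_cast h1
  have h3 : b < 2 ^ b.size := Nat.lt_size_self b
  have hbs : 0 < b.size := Nat.size_pos.2 (Nat.pos_of_ne_zero hb)
  have h4 : 2 ^ (a.size - 1) ≤ a := by
    have : a.size - 1 < a.size := by omega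
    exact Nat.lt_size.1 this
  have h5 : 2 ^ (b.size + τ) ≤ 2 * 2 ^ (a.size - 1) := by
    rw [← pow_succ']
    exact Nat.pow_le_pow_right (by norm_num) (by omega)
  have h6 : 2 ^ τ * b < 2 ^ (b.size + τ) := by
    rw [pow_add, mul_comm]
    exact Nat.mul_lt_mul_of_pos_right h3 (by positivity)
  omega

theorem dc (hG : GAP) (hP : PROB) (hW : WORD) (hR : ROWS) (hU : PTU) : DC := by
  intro k ρ A p hk hρ hA c h hc hm
  obtain ⟨l, hl, τ, hτ, hψ⟩ := hG k c h hk hc
  refine ⟨l, hl, τ, hτ, ?_⟩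
  intro ψ hlen
  obtain ⟨hsat, hunsat⟩ := hψ ψ hlen
  obtain ⟨hP1, hP2, hP3, -⟩ := hP
  obtain ⟨hW1, hW2, hW3⟩ := hW
  obtain ⟨-, hU2⟩ := hU
  subst hlen
  set b := nbits (4 * ψ.length) l (tc k ψ.length h) with hb
  set N := bmx k p ψ.length h with hN
  have hbN : b + p.eval (xmx k ψ.length h) ≤ N := by
    rw [hN, bmx]
    exact Nat.add_le_add_right (nbits_mono hl) _
  -- facts on the instance
  have hrows : ∀ s, (cnfRows k h ψ l s).length = nblocks (4 * ψ.length) l (tc k ψ.length h) :=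
    fun s => (hR k (4 * ψ.length) l (tc k ψ.length h) (conf ψ) s).1
  have hM : nblocks (4 * ψ.length) l (tc k ψ.length h) ≤ mmx k ψ.length h := nblocks_mono hl
  have hxl : ∀ s, (cnfWord k h ψ l s).length ≤ xmx k ψ.length h := by
    intro s
    rw [cnfWord, ← hW1]
    refine (hW3 _ _).trans ?_
    rw [hW2, hrows s]
    have h1 : 4 * ψ.length * l ≤ nblocks (4 * ψ.length) l (tc k ψ.length h) := by
      unfold nblocks; omega
    unfold xmx
    have h2 : 4 * ψ.length * l + nblocks (4 * ψ.length) l (tc k ψ.length h) ≤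
        2 * mmx k ψ.length h := by omega
    have h3 : nblocks (4 * ψ.length) l (tc k ψ.length h) * 4 ≤ 4 * mmx k ψ.length h := by omega
    exact Nat.add_le_add (by omega) (Nat.mul_le_mul (Nat.mul_le_mul h2 h3) h3)
  have hgl : ∀ s, (gens (4 * ψ.length * l) (cnfRows k h ψ l s)).length ≤
      (cnfRows k h ψ l s).length * 4 := by
    intro s
    rw [hW2, hrows s]
    unfold nblocks; omega
  have hρm : ∀ s, ρ ((cnfRows k h ψ l s).length * 4) ≤ 2 ^ h := by
    intro s
    apply hm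
    rw [hrows s]
    omega
  -- the two properties
  let P : List Bool → Prop := fun s =>
    ¬ Sat4 ψ → (2 : ℝ) ^ (h + 1) * cnfZ k h ψ l s ≤ 2 ^ τ
  let Q : List Bool → List Bool → Prop := fun s r => ∃ a b' : ℕ,
    A (pairWord (cnfWord k h ψ l s) (r.take (p.eval (cnfWord k h ψ l s).length))) =
      pairWord a.bits b'.bits ∧ b' ≠ 0 ∧
      (cnfZ k h ψ l s : ℝ) / ρ ((cnfRows k h ψ l s).length * 4) ≤ (a : ℝ) / b' ∧
      (a : ℝ) / b' ≤ ρ ((cnfRows k h ψ l s).length * 4) * cnfZ k h ψ l s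
  have hPp : 1 - (1 / 8 : ℝ) ≤ prob b P := by
    by_cases hs : Sat4 ψ
    · have h1 : prob b (fun _ => True) ≤ prob b P :=
        hP1 b _ _ fun r _ _ hn => absurd hs hn
      have h2 : prob b (fun _ => True) = 1 := by
        unfold prob
        have : Nat.card {r : Fin b → Bool // True} = 2 ^ b := by
          rw [Nat.card_congr (Equiv.subtypeUnivEquiv fun _ => trivial)]
          simp
        rw [this]
        push_cast
        exact div_self (by positivity)
      linarith
    · have h1 := hunsat hs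
      have h2 : prob b (fun r => (2 : ℝ) ^ (h + 1) * cnfZ k h ψ l r ≤ 2 ^ τ) ≤ prob b P :=
        hP1 b _ _ fun r _ hr _ => hr
      have h3 : (1 : ℝ) - 1 / 8 = 7 / 8 := by norm_num
      rw [h3]
      exact h1.trans h2
  have hQp : ∀ s : List Bool, s.length = b → 1 - (1 / 4 : ℝ) ≤ prob (N - b) (Q s) := by
    intro s _
    have h1 := hA ((cnfRows k h ψ l s).length * 4) (gens (4 * ψ.length * l) (cnfRows k h ψ l s))
      (hgl s)
    rw [hW1] at h1
    have hq : p.eval (cnfWord k h ψ l s).length ≤ N - b := by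
      have := eval_mono p (hxl s)
      omega
    have h2 := hP2 0 (p.eval (cnfWord k h ψ l s).length) (N - b) (fun r => ∃ a b' : ℕ,
      A (pairWord (cnfWord k h ψ l s) r) = pairWord a.bits b'.bits ∧ b' ≠ 0 ∧
      (cnfZ k h ψ l s : ℝ) / ρ ((cnfRows k h ψ l s).length * 4) ≤ (a : ℝ) / b' ∧
      (a : ℝ) / b' ≤ ρ ((cnfRows k h ψ l s).length * 4) * cnfZ k h ψ l s) (by omega)
    have h3 : (1 : ℝ) - 1 / 4 = 3 / 4 := by norm_num
    rw [h3]
    refine (h1.trans (le_of_eq h2.symm)).trans ?_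
    refine hP1 _ _ _ fun r _ hr => ?_
    simpa [Q] using hr
  have hfin := hP3 b N P Q (1 / 8) (1 / 4) (by omega) hPp hQp
  have h58 : (1 : ℝ) - (1 / 8 + 1 / 4) = 5 / 8 := by norm_num
  rw [h58] at hfin
  refine hfin.trans (hP1 _ _ _ fun r hr hpq => ?_)
  obtain ⟨hPr, a, b', hout, hb0, hlow, hupp⟩ := hpq
  have hdec : dec A p k h ψ l τ r = true ↔ b'.bits.length + τ ≤ a.bits.length := by
    unfold dec
    simp only [← hb]
    rw [hout, hU2]
    simp
  rw [hdec]
  have hρpos := hρ ((cnfRows k h ψ l (r.take b)).length * 4)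
  have hρle := hρm (r.take b)
  constructor
  · intro hle
    by_contra hns
    have h1 := hPr hns
    refine size_small hb0 ?_ hle
    have h2 : (a : ℝ) / b' ≤ 2 ^ h * cnfZ k h ψ l (r.take b) :=
      hupp.trans (mul_le_mul_of_nonneg_right hρle (Nat.cast_nonneg _))
    calc 2 * ((a : ℝ) / b') ≤ 2 * (2 ^ h * cnfZ k h ψ l (r.take b)) := by linarith
      _ = 2 ^ (h + 1) * cnfZ k h ψ l (r.take b) := by ring
      _ ≤ 2 ^ τ := h1
  · intro hs
    apply size_large hb0
    refine le_trans ?_ hlow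
    rw [le_div_iff₀ hρpos]
    calc (2 : ℝ) ^ τ * ρ ((cnfRows k h ψ l (r.take b)).length * 4) ≤ 2 ^ τ * 2 ^ h :=
          mul_le_mul_of_nonneg_left hρle (by positivity)
      _ = 2 ^ (τ + h) := by rw [pow_add]
      _ ≤ _ := hsat hs _

end Pool.Agent.Polya.H58
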