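import Pool.Agent.Lib.MP_6ec4b3_lc.Interfaces

/-!
# From the approximation scheme to an approximation within the factor two
-/

namespace Pool.Agent.Polya.H58

open Pool.Agent.Shoped30 Pool.Agent.TMLib Computability

theorem pt_pairWord {α : Type} [TrEnc α] {f g : α → List Bool} (hf : PTime f) (hg : PTime g) :
    PTime (fun a => pairWord (f a) (g a)) := by
  unfold pairWord
  refine PTime.append (PTime.flatMap (l := f) (F := fun _ b => [true, b]) hf ?_)
    (PTime.cons (PTime.const false) hg)
  fun_prop

theorem exp_half_le : Real.exp (1 / 2) ≤ 2 := by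
  have h1 : Real.exp (1 / 2) * Real.exp (1 / 2) = Real.exp 1 := by
    rw [← Real.exp_add]; norm_num
  have h2 : Real.exp 1 < 4 := by
    have := Real.exp_one_lt_d9
    linarith
  have h3 : 0 < Real.exp (1 / 2) := Real.exp_pos _
  nlinarith

theorem fpa (hU : PTU) (hB : BRIDGE) : FPA := by
  intro k ⟨A, p, hA, hap⟩
  obtain ⟨hU1, hU2⟩ := hU
  refine ⟨fun v => A (pairWord (pairWord (unpairW v).1 [true, true]) (unpairW v).2),
    p.comp (Polynomial.X + 2), ?_, ?_⟩
  · have a1 : PTime (fun v : List Bool => (unpairW v).1) := PTime.fst hU1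
    have a2 : PTime (fun v : List Bool => (unpairW v).2) := PTime.snd hU1
    exact (hB.1 A hA).comp (pt_pairWord (pt_pairWord a1 (PTime.const _)) a2)
  · intro m gs hgs
    have h := hap m gs hgs 2 le_rfl
    have he : (p.comp (Polynomial.X + 2)).eval (inputWord gs).length =
        p.eval ((inputWord gs).length + 2) := by
      rw [Polynomial.eval_comp]
      simp
    rw [he]
    refine h.trans ?_
    unfold prob
    refine div_le_div_of_nonneg_right ?_ (by positivity)
    rw [Nat.cast_le]
    refine Nat.card_le_card_of_injective (fun r => ⟨r.1, ?_⟩) (fun a b hab => ?_)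
    · obtain ⟨a, b, h1, h2, h3, h4⟩ := r.2
      refine ⟨a, b, ?_, h2, ?_, ?_⟩
      · simp only [hU2]
        exact h1
      · refine le_trans ?_ h3
        have h5 : Real.exp (-(1 / ((2 : ℕ) : ℝ))) = (Real.exp (1 / 2))⁻¹ := by
          rw [← Real.exp_neg]; norm_num
        rw [h5, div_eq_inv_mul]
        refine mul_le_mul_of_nonneg_right ?_ (Nat.cast_nonneg _)
        exact inv_anti₀ (Real.exp_pos _) exp_half_le
      · refine h4.trans ?_
        refine mul_le_mul_of_nonneg_right ?_ (Nat.cast_nonneg _)
        have h5 : (1 / ((2 : ℕ) : ℝ)) = 1 / 2 := by norm_num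
        rw [h5]
        exact exp_half_le
    · have := congrArg Subtype.val hab
      exact Subtype.ext this

end Pool.Agent.Polya.H58
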