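import Pool.Agent.Lib.MP_6ec4b3_lc.H58.RPM

/-!
# The complete procedure is computable in polynomial time
-/

namespace Pool.Agent.Polya.H58

open Pool.Agent.Shoped30 Pool.Agent.TMLib Computability

variable {α : Type} [TrEnc α]

theorem pt_chunk {l j : α → ℕ} {r : α → List Bool} (hl : PTime l) (hj : PTime j)
    (hr : PTime r) : PTime (fun a => chunk (l a) (j a) (r a)) := by
  unfold chunk
  fun_prop

theorem pt_maj {T B : α → ℕ} {D : α → List Bool → Bool} {r : α → List Bool} (hT : PTime T)
    (hB : PTime B) (hD : PTime (fun p : α × List Bool => D p.1 p.2)) (hr : PTime r) :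
    PTime (fun a => maj (T a) (B a) (D a) (r a)) := by
  unfold maj
  refine pt_lt hT (PTime.mul (PTime.const 2) (PTime.length ?_))
  refine PTime.filter (l := fun a => List.range (T a))
    (F := fun a j => D a (chunk (B a) j (r a))) (pt_range hT) ?_
  have h1 : PTime (fun p : α × ℕ => (p.1, chunk (B p.1) p.2 (r p.1))) :=
    PTime.pair (PTime.fst PTime.id) (pt_chunk (hB.comp (PTime.fst PTime.id))
      (PTime.snd PTime.id) (hr.comp (PTime.fst PTime.id)))
  exact hD.comp h1

theorem pt_unitC {x : α → Lit} (hx : PTime x) : PTime (fun a => unitC (x a)) := by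
  unfold unitC
  exact PTime.pair hx (PTime.pair hx (PTime.pair hx hx))

theorem pt_query {N i : α → ℕ} {ψ : α → List Cl4} {as : α → List Lit} (hN : PTime N)
    (hi : PTime i) (hψ : PTime ψ) (has : PTime as) :
    PTime (fun a => query (N a) (ψ a) (as a) (i a)) := by
  unfold query
  refine PTime.append hψ (PTime.append ?_ (PTime.cons ?_ (PTime.replicate ?_ (PTime.const _))))
  · exact PTime.map (l := as) (F := fun _ x => unitC x) has (pt_unitC (PTime.snd PTime.id))
  · exact pt_unitC (x := fun a => (i a, true)) (PTime.pair hi (PTime.const _))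
  · fun_prop

/-- The result of the search on the first variables: the variables are the first natural
numbers. -/
theorem foldl_lit (f : List Lit → ℕ → Bool) (l : List ℕ) (s : List Lit) :
    (l.foldl (fun as i => as ++ [(i, f as i)]) s).map Prod.fst = s.map Prod.fst ++ l := by
  induction l generalizing s with
  | nil => simp
  | cons c l ih => rw [List.foldl_cons, ih]; simp

theorem pt_search {D : α → List Cl4 → List Bool → Bool} {N T B : α → ℕ} {ψ : α → List Cl4}
    {r : α → List Bool}
    (hD : PTime (fun p : α × List Cl4 × List Bool => D p.1 p.2.1 p.2.2)) (hN : PTime N)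
    (hT : PTime T) (hB : PTime B) (hψ : PTime ψ) (hr : PTime r) :
    PTime (fun a => search (D a) (N a) (T a) (B a) (ψ a) (r a)) := by
  unfold search
  refine PTime.foldl (l := fun a => List.range (N a)) (g := fun _ => ([] : List Lit))
    (F := fun a as i => as ++ [(i, maj (T a) (B a) (D a (query (N a) (ψ a) as i))
      (chunk (T a * B a) i (r a)))]) (pt_range hN) (PTime.const _) ?_
    (fun a => N a * (2 * N a + 1 + 3 + 1 + 1) + 1) ?_ ?_
  · have a1 : PTime (fun p : α × List Lit × ℕ => p.1) := PTime.fst PTime.id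
    have a2 : PTime (fun p : α × List Lit × ℕ => p.2.1) := PTime.fst (PTime.snd PTime.id)
    have a3 : PTime (fun p : α × List Lit × ℕ => p.2.2) := PTime.snd (PTime.snd PTime.id)
    refine PTime.append a2 (PTime.cons (PTime.pair a3 ?_) (PTime.const _))
    refine pt_maj (T := fun p : α × List Lit × ℕ => T p.1) (B := fun p => B p.1)
      (D := fun p s => D p.1 (query (N p.1) (ψ p.1) p.2.1 p.2.2) s)
      (r := fun p => chunk (T p.1 * B p.1) p.2.2 (r p.1)) (hT.comp a1) (hB.comp a1) ?_
      (pt_chunk (PTime.mul (hT.comp a1) (hB.comp a1)) a3 (hr.comp a1))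
    have b1 : PTime (fun p : (α × List Lit × ℕ) × List Bool => p.1) := PTime.fst PTime.id
    have b2 : PTime (fun p : (α × List Lit × ℕ) × List Bool => p.2) := PTime.snd PTime.id
    have h1 : PTime (fun p : (α × List Lit × ℕ) × List Bool =>
        (p.1.1, query (N p.1.1) (ψ p.1.1) p.1.2.1 p.1.2.2, p.2)) := by
      refine PTime.pair (a1.comp b1) (PTime.pair ?_ b2)
      exact pt_query (hN.comp (a1.comp b1)) (a3.comp b1) (hψ.comp (a1.comp b1)) (a2.comp b1)
    exact hD.comp h1
  · have hn := PB.nat hN
    exact (hn.mul ((((((PB.const 2).mul hn).add (PB.const 1)).add (PB.const 3)).add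
      (PB.const 1)).add (PB.const 1))).add (PB.const 1)
  · intro a l₁ l₂ h
    have hm := foldl_lit (fun as i => maj (T a) (B a) (D a (query (N a) (ψ a) as i))
      (chunk (T a * B a) i (r a))) l₁ []
    rw [List.map_nil, List.nil_append] at hm
    have hlen : (l₁.foldl (fun as i => as ++ [(i, maj (T a) (B a)
        (D a (query (N a) (ψ a) as i)) (chunk (T a * B a) i (r a)))]) []).length
        ≤ N a := by
      have h1 := congrArg List.length hm
      rw [List.length_map] at h1
      rw [h1]
      have h2 := congrArg List.length h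
      rw [List.length_range, List.length_append] at h2
      omega
    refine (sz_le_of_forall _ (2 * N a + 1 + 3 + 1) ?_).trans ?_
    · intro b hb
      have hb1 : b.1 ∈ l₁ := by
        rw [← hm]
        exact List.mem_map.2 ⟨b, hb, rfl⟩
      have hb2 : b.1 ∈ List.range (N a) := by
        rw [h]
        exact List.mem_append_left _ hb1
      rw [List.mem_range] at hb2
      rw [sz_prod', sz_nat]
      have := sz_bool_le b.2
      omega
    · gcongr

theorem pt_beq {f g : α → Bool} (hf : PTime f) (hg : PTime g) :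
    PTime (fun a => f a == g a) := by
  refine (PTime.not (PTime.xor hf hg)).of_eq (fun a => ?_)
  cases f a <;> cases g a <;> rfl

theorem pt_asgn {as : α → List Lit} {v : α → ℕ} (has : PTime as) (hv : PTime v) :
    PTime (fun a => asgn (as a) (v a)) := by
  unfold asgn
  exact PTime.snd (PTime.getD hv has (PTime.const _))

theorem pt_satB {ψ : α → List Cl4} {as : α → List Lit} (hψ : PTime ψ) (has : PTime as) :
    PTime (fun a => satB (ψ a) (as a)) := by
  unfold satB
  refine PTime.all (l := ψ) (F := fun a C => (asgn (as a) C.1.1 == C.1.2) ||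
    (asgn (as a) C.2.1.1 == C.2.1.2) || (asgn (as a) C.2.2.1.1 == C.2.2.1.2) ||
    (asgn (as a) C.2.2.2.1 == C.2.2.2.2)) hψ ?_
  have a1 : PTime (fun p : α × Cl4 => as p.1) := has.comp (PTime.fst PTime.id)
  have a2 : PTime (fun p : α × Cl4 => p.2) := PTime.snd PTime.id
  have key : ∀ x : α × Cl4 → Lit, PTime x → PTime (fun p => asgn (as p.1) (x p).1 == (x p).2) :=
    fun x hx => pt_beq (pt_asgn a1 (PTime.fst hx)) (PTime.snd hx)
  exact PTime.or (PTime.or (PTime.or (key _ (PTime.fst a2)) (key _ (PTime.fst (PTime.snd a2))))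
    (key _ (PTime.fst (PTime.snd (PTime.snd a2))))) (key _ (PTime.snd (PTime.snd (PTime.snd a2))))

theorem ptr : PTR := by
  intro D lm tm bm hD hlm htm hbm
  unfold rpB
  have hψ : PTime (fun x : List Cl4 × List Bool => x.1) := PTime.fst PTime.id
  have hr : PTime (fun x : List Cl4 × List Bool => x.2) := PTime.snd PTime.id
  have hN : PTime (fun x : List Cl4 × List Bool => nvar x.1) := pt_nvar.comp hψ
  have hc : PTime (fun x : List Cl4 × List Bool => x.1.length + nvar x.1) :=
    PTime.add (PTime.length hψ) hN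
  refine PTime.any (l := fun x : List Cl4 × List Bool =>
      List.range (lm (x.1.length + nvar x.1) + 1))
    (F := fun x l => (List.range (tm (x.1.length + nvar x.1) + 1)).any fun τ =>
      satB x.1 (search (fun φ s => D φ l τ s) (nvar x.1) (32 * nvar x.1)
        (bm (x.1.length + nvar x.1)) x.1 x.2))
    (pt_range (PTime.add (hlm.comp hc) (PTime.const 1))) ?_
  have b1 : PTime (fun p : (List Cl4 × List Bool) × ℕ => p.1) := PTime.fst PTime.id
  have b2 : PTime (fun p : (List Cl4 × List Bool) × ℕ => p.2) := PTime.snd PTime.id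
  refine PTime.any (l := fun p : (List Cl4 × List Bool) × ℕ =>
      List.range (tm (p.1.1.length + nvar p.1.1) + 1))
    (F := fun p τ => satB p.1.1 (search (fun φ s => D φ p.2 τ s) (nvar p.1.1)
      (32 * nvar p.1.1) (bm (p.1.1.length + nvar p.1.1)) p.1.1 p.1.2))
    (pt_range (PTime.add (htm.comp (hc.comp b1)) (PTime.const 1))) ?_
  have c1 : PTime (fun q : ((List Cl4 × List Bool) × ℕ) × ℕ => q.1) := PTime.fst PTime.id
  have c2 : PTime (fun q : ((List Cl4 × List Bool) × ℕ) × ℕ => q.2) := PTime.snd PTime.id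
  have d1 := b1.comp c1
  have d2 := b2.comp c1
  refine pt_satB (ψ := fun q : ((List Cl4 × List Bool) × ℕ) × ℕ => q.1.1.1)
    (hψ.comp d1) ?_
  refine pt_search (D := fun q : ((List Cl4 × List Bool) × ℕ) × ℕ =>
      fun φ s => D φ q.1.2 q.2 s) (N := fun q => nvar q.1.1.1)
    (T := fun q => 32 * nvar q.1.1.1) (B := fun q => bm (q.1.1.1.length + nvar q.1.1.1))
    (ψ := fun q => q.1.1.1) (r := fun q => q.1.1.2) ?_ (hN.comp d1)
    (PTime.mul (PTime.const 32) (hN.comp d1)) (hbm.comp (hc.comp d1)) (hψ.comp d1) (hr.comp d1)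
  have e1 : PTime (fun p : (((List Cl4 × List Bool) × ℕ) × ℕ) × List Cl4 × List Bool => p.1) :=
    PTime.fst PTime.id
  have e2 : PTime (fun p : (((List Cl4 × List Bool) × ℕ) × ℕ) × List Cl4 × List Bool => p.2) :=
    PTime.snd PTime.id
  have h1 : PTime (fun p : (((List Cl4 × List Bool) × ℕ) × ℕ) × List Cl4 × List Bool =>
      (p.2.1, p.1.1.2, p.1.2, p.2.2)) :=
    PTime.pair (PTime.fst e2) (PTime.pair (d2.comp e1) (PTime.pair (c2.comp e1) (PTime.snd e2)))
  exact hD.comp h1

end Pool.Agent.Polya.H58
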