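import Pool.Agent.Lib.MP_6ec4b3_lc.Interfaces

/-!
# A decision procedure with advice puts NP into RP
-/

namespace Pool.Agent.Polya.H58

open Pool.Agent.Shoped30 Pool.Agent.TMLib Computability

theorem prob_mono {N : ℕ} {P Q : List Bool → Prop} (h : ∀ r, P r → Q r) :
    prob N P ≤ prob N Q := by
  unfold prob
  refine div_le_div_of_nonneg_right ?_ (by positivity)
  have : Nat.card {r : Fin N → Bool // P (List.ofFn r)} ≤
      Nat.card {r : Fin N → Bool // Q (List.ofFn r)} :=
    Nat.card_le_card_of_injective (fun r => (⟨r.1, h _ r.2⟩ :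
      {r : Fin N → Bool // Q (List.ofFn r)})) (fun a b hab => by
        have := congrArg Subtype.val hab
        exact Subtype.ext this)
  exact_mod_cast this

theorem pt_nvar : PTime nvar := by
  unfold nvar
  refine PTime.add (PTime.length ?_) (PTime.const 1)
  refine PTime.flatMap (l := fun ψ : List Cl4 => ψ) (F := fun _ C =>
    List.replicate (C.1.1 + C.2.1.1 + C.2.2.1.1 + C.2.2.2.1) ()) PTime.id ?_
  have e1 : PTime (fun x : List Cl4 × Cl4 => x.2.1.1) := by fun_prop
  have e2 : PTime (fun x : List Cl4 × Cl4 => x.2.2.1.1) := by fun_prop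
  have e3 : PTime (fun x : List Cl4 × Cl4 => x.2.2.2.1.1) := by fun_prop
  have e4 : PTime (fun x : List Cl4 × Cl4 => x.2.2.2.2.1) := by fun_prop
  fun_prop

theorem polyEval_mono' (p : Polynomial ℕ) {a b : ℕ} (h : a ≤ b) : p.eval a ≤ p.eval b := by
  rw [Polynomial.eval_eq_sum, Polynomial.eval_eq_sum, Polynomial.sum, Polynomial.sum]
  exact Finset.sum_le_sum fun i _ => Nat.mul_le_mul_left _ (Nat.pow_le_pow_left h i)

theorem rpm (hSR : SR) (hPTR : PTR) (hU : PTU) (hB : BRIDGE) : RPM := by
  intro D lm tm bm hD hlm htm hbm hadv L hL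
  obtain ⟨hS1, hS2⟩ := hSR
  obtain ⟨hU1, hU2⟩ := hU
  obtain ⟨g, hg, hw⟩ := cook_levin hL
  -- the number of random bits
  have hT : PTime (fun w : List Bool =>
      nvar (g w) * (32 * nvar (g w)) * bm ((g w).length + nvar (g w))) := by
    have h1 : PTime (fun w : List Bool => nvar (g w)) := pt_nvar.comp hg
    have h2 : PTime (fun w : List Bool => (g w).length) := PTime.length hg
    have h3 : PTime (fun w : List Bool => (g w).length + nvar (g w)) := PTime.add h2 h1
    exact PTime.mul (PTime.mul h1 (PTime.mul (PTime.const 32) h1)) (hbm.comp h3)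
  obtain ⟨P, hP⟩ := PB.nat hT
  have hlen : ∀ w : List Bool, sz w ≤ (4 * Polynomial.X + 1 : Polynomial ℕ).eval w.length := by
    intro w
    have := sz_bools_le w
    simpa using this
  refine ⟨fun v => rpB D lm tm bm (g (unpairW v).1) (unpairW v).2,
    P.comp (4 * Polynomial.X + 1), hB.2.2 _ ?_, ?_, ?_⟩
  · have h1 : PTime (fun v : List Bool => (g (unpairW v).1, (unpairW v).2)) := by
      have a1 : PTime (fun v : List Bool => (unpairW v).1) := PTime.fst hU1
      have a2 : PTime (fun v : List Bool => (unpairW v).2) := PTime.snd hU1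
      exact PTime.pair (hg.comp a1) a2
    exact (hPTR D lm tm bm hD hlm htm hbm).comp h1
  · intro w hwL r _
    rw [hw] at hwL
    simp only [hU2]
    by_contra hne
    rw [Bool.not_eq_false] at hne
    unfold rpB at hne
    simp only [List.any_eq_true] at hne
    obtain ⟨l, _, τ, _, hsat⟩ := hne
    exact hwL (hS1 _ _ hsat)
  · intro w hwL
    rw [hw] at hwL
    have hc : 1 ≤ (g w).length + nvar (g w) := by unfold nvar; omega
    obtain ⟨l, hl, τ, hτ, hdec⟩ := hadv _ hc
    have hR : nvar (g w) * (32 * nvar (g w)) * bm ((g w).length + nvar (g w)) ≤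
        (P.comp (4 * Polynomial.X + 1)).eval w.length := by
      refine (hP w).trans ?_
      rw [Polynomial.eval_comp]
      exact polyEval_mono' _ (hlen w)
    have h1 := hS2 (fun φ s => D φ l τ s) (g w) (bm ((g w).length + nvar (g w)))
      ((P.comp (4 * Polynomial.X + 1)).eval w.length) (fun φ hφ => hdec φ hφ) hwL hR
    refine h1.trans (prob_mono fun r hr => ?_)
    simp only [hU2]
    unfold rpB
    simp only [List.any_eq_true, List.mem_range]
    exact ⟨l, by omega, τ, by omega, hr⟩

end Pool.Agent.Polya.H58
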